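import Pool.Agent.Helper33.Ram.FCAST

/-!
# REL: the operations on digits do the same as the operations on states
-/

namespace Pool.Agent.Helper33.Ram

open Pool.Agent.Helper65.LinSpace Pool.Agent.Helper78.Mpc Finset Pool.Agent.Helper28.Ram

/-! ### Codes -/

section

variable {p : ℕ} (m : Mach) (s : Mach.St p)

theorem enc0 (k : ℕ) : m.enc s (7 * k) = (s.R (k / m.wd) (k % m.wd)).val := by
  have h1 : 7 * k % 7 = 0 := by omega
  have h2 : 7 * k / 7 = k := by omega
  unfold Mach.enc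
  rw [h1, h2]
  simp

theorem enc1 (k : ℕ) : m.enc s (7 * k + 1) = s.md k := by
  have h1 : (7 * k + 1) % 7 = 1 := by omega
  have h2 : (7 * k + 1) / 7 = k := by omega
  unfold Mach.enc
  rw [h1, h2]
  simp

theorem enc2 (k : ℕ) : m.enc s (7 * k + 2) = s.nd k := by
  have h1 : (7 * k + 2) % 7 = 2 := by omega
  have h2 : (7 * k + 2) / 7 = k := by omega
  unfold Mach.enc
  rw [h1, h2]
  simp

theorem enc3 (k : ℕ) : m.enc s (7 * k + 3) = s.sg k := by
  have h1 : (7 * k + 3) % 7 = 3 := by omega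
  have h2 : (7 * k + 3) / 7 = k := by omega
  unfold Mach.enc
  rw [h1, h2]
  simp

theorem enc4 (k : ℕ) : m.enc s (7 * k + 4) = dig 2 (s.qa (k / m.σ)) (k % m.σ) := by
  have h1 : (7 * k + 4) % 7 = 4 := by omega
  have h2 : (7 * k + 4) / 7 = k := by omega
  unfold Mach.enc
  rw [h1, h2]
  simp

theorem enc5 (k : ℕ) : m.enc s (7 * k + 5) = (s.ac k).val := by
  have h1 : (7 * k + 5) % 7 = 5 := by omega
  have h2 : (7 * k + 5) / 7 = k := by omega
  unfold Mach.enc
  rw [h1, h2]
  simp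

theorem enc6 (k : ℕ) : m.enc s (7 * k + 6) = (s.sv (k / (3 * m.σ)) (k % (3 * m.σ))).val := by
  have h1 : (7 * k + 6) % 7 = 6 := by omega
  have h2 : (7 * k + 6) / 7 = k := by omega
  unfold Mach.enc
  rw [h1, h2]
  simp

end

/-- The entries of the digits. -/
structure Dat {p : ℕ} (m : Mach) (J K : ℕ) (a : ℕ → ℕ) (s : Mach.St p) : Prop where
  lt : ∀ x < 7 * J, a x < p
  R : ∀ k < J, a (7 * k) = (s.R (k / m.wd) (k % m.wd)).val
  md : ∀ k < J, a (7 * k + 1) = s.md k
  nd : ∀ k < J, a (7 * k + 2) = s.nd k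
  sg : ∀ k < J, a (7 * k + 3) = s.sg k
  qa : ∀ k < J, a (7 * k + 4) = dig 2 (s.qa (k / m.σ)) (k % m.σ)
  ac : ∀ k < J, a (7 * k + 5) = (s.ac k).val
  sv : ∀ k < J, a (7 * k + 6) = (s.sv (k / (3 * m.σ)) (k % (3 * m.σ))).val
  q2 : ∀ t ≤ K, s.qa t < 2 ^ m.σ

theorem rel_iff {p : ℕ} (m : Mach) (J K : ℕ) (a : ℕ → ℕ) (s : Mach.St p) :
    m.Rel J K a s ↔ Dat m J K a s := by
  constructor
  · rintro ⟨h1, h2⟩
    refine ⟨fun x hx => (h1 x hx).2, fun k hk => ?_, fun k hk => ?_, fun k hk => ?_, fun k hk => ?_,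
      fun k hk => ?_, fun k hk => ?_, fun k hk => ?_, h2⟩
    · rw [(h1 (7 * k) (by omega)).1, enc0]
    · rw [(h1 (7 * k + 1) (by omega)).1, enc1]
    · rw [(h1 (7 * k + 2) (by omega)).1, enc2]
    · rw [(h1 (7 * k + 3) (by omega)).1, enc3]
    · rw [(h1 (7 * k + 4) (by omega)).1, enc4]
    · rw [(h1 (7 * k + 5) (by omega)).1, enc5]
    · rw [(h1 (7 * k + 6) (by omega)).1, enc6]
  · intro h
    refine ⟨fun x hx => ⟨?_, h.lt x hx⟩, h.q2⟩
    obtain ⟨k, c, hc, rfl⟩ : ∃ k c, c < 7 ∧ x = 7 * k + c :=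
      ⟨x / 7, x % 7, Nat.mod_lt _ (by norm_num), by omega⟩
    have hk : k < J := by omega
    interval_cases c
    · rw [add_zero, enc0, h.R k hk]
    · rw [enc1, h.md k hk]
    · rw [enc2, h.nd k hk]
    · rw [enc3, h.sg k hk]
    · rw [enc4, h.qa k hk]
    · rw [enc5, h.ac k hk]
    · rw [enc6, h.sv k hk]

section

variable (m : Mach) (p l j : ℕ) (a : ℕ → ℕ) (k : ℕ)

theorem opA0 : m.opA p l j a (7 * k) = m.nR p l j a k % p := by
  have h1 : 7 * k % 7 = 0 := by omega
  have h2 : 7 * k / 7 = k := by omega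
  unfold Mach.opA
  rw [h1, h2]
  simp [ifz]

theorem opA1 : m.opA p l j a (7 * k + 1) =
    ifz (eq01 k l) (a (7 * k + 1)) (m.cMd l j a) % p := by
  have h1 : (7 * k + 1) % 7 = 1 := by omega
  have h2 : (7 * k + 1) / 7 = k := by omega
  unfold Mach.opA
  rw [h1, h2]
  simp [ifz]

theorem opA2 : m.opA p l j a (7 * k + 2) =
    ifz (eq01 k l) (a (7 * k + 2)) (m.cNd l j a) % p := by
  have h1 : (7 * k + 2) % 7 = 2 := by omega
  have h2 : (7 * k + 2) / 7 = k := by omega
  unfold Mach.opA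
  rw [h1, h2]
  simp [ifz]

theorem opA3 : m.opA p l j a (7 * k + 3) =
    ifz (eq01 k l) (a (7 * k + 3)) (m.cSg l j a) % p := by
  have h1 : (7 * k + 3) % 7 = 3 := by omega
  have h2 : (7 * k + 3) / 7 = k := by omega
  unfold Mach.opA
  rw [h1, h2]
  simp [ifz]

theorem opA4 : m.opA p l j a (7 * k + 4) = m.nQ l j a k % p := by
  have h1 : (7 * k + 4) % 7 = 4 := by omega
  have h2 : (7 * k + 4) / 7 = k := by omega
  unfold Mach.opA
  rw [h1, h2]
  simp [ifz]

theorem opA5 : m.opA p l j a (7 * k + 5) = m.nAc p l j a k % p := by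
  have h1 : (7 * k + 5) % 7 = 5 := by omega
  have h2 : (7 * k + 5) / 7 = k := by omega
  unfold Mach.opA
  rw [h1, h2]
  simp [ifz]

theorem opA6 : m.opA p l j a (7 * k + 6) = m.nSv l j a k % p := by
  have h1 : (7 * k + 6) % 7 = 6 := by omega
  have h2 : (7 * k + 6) / 7 = k := by omega
  unfold Mach.opA
  rw [h1, h2]
  simp [ifz]

end

/-- A new state is built from its parts. -/
theorem build {p : ℕ} (m : Mach) (hp2 : 2 < p) {J K : ℕ} {a : ℕ → ℕ} {s : Mach.St p}
    (h : Dat m J K a s) {l j : ℕ} (R' : ℕ → ℕ → ZMod p) (qa' : ℕ → ℕ) (ac' : ℕ → ZMod p)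
    (sv' : ℕ → ℕ → ZMod p) (c i g : ℕ)
    (hR : ∀ k < J, ((m.nR p l j a k : ℕ) : ZMod p) = R' (k / m.wd) (k % m.wd))
    (hc : m.cMd l j a = c ∧ c < p) (hi : m.cNd l j a = i ∧ i < p) (hg : m.cSg l j a = g ∧ g < p)
    (hq : ∀ k < J, m.nQ l j a k = dig 2 (qa' (k / m.σ)) (k % m.σ))
    (ha : ∀ k < J, ((m.nAc p l j a k : ℕ) : ZMod p) = ac' k)
    (hs : ∀ k < J, ((m.nSv l j a k : ℕ) : ZMod p) = sv' (k / (3 * m.σ)) (k % (3 * m.σ)))
    (hq2 : ∀ t ≤ K, qa' t < 2 ^ m.σ) :
    Dat m J K (trc (7 * J) (m.opA p l j a))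
      (({ s with R := R', qa := qa', ac := ac', sv := sv' } : Mach.St p).call l c i g) := by
  have hp : 0 < p := by omega
  have ht : ∀ x < 7 * J, trc (7 * J) (m.opA p l j a) x = m.opA p l j a x := fun x hx => if_pos hx
  have hv : ∀ n : ℕ, ∀ z : ZMod p, (n : ZMod p) = z → n % p = z.val := by
    intro n z hz
    rw [← hz, ZMod.val_natCast]
  refine ⟨fun x hx => ?_, fun k hk => ?_, fun k hk => ?_, fun k hk => ?_, fun k hk => ?_,
    fun k hk => ?_, fun k hk => ?_, fun k hk => ?_, hq2⟩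
  · rw [ht x hx]
    exact Nat.mod_lt _ hp
  · rw [ht _ (by omega), opA0]
    exact hv _ _ (hR k hk)
  · rw [ht _ (by omega), opA1]
    show _ = Function.update s.md l c k
    by_cases hkl : k = l
    · subst hkl
      rw [Function.update_self, ifz, eq01, if_pos rfl, if_neg (by norm_num), hc.1,
        Nat.mod_eq_of_lt hc.2]
    · rw [Function.update_of_ne hkl, ifz, eq01, if_neg hkl, if_pos rfl,
        Nat.mod_eq_of_lt (h.lt _ (by omega)), h.md k hk]
  · rw [ht _ (by omega), opA2]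
    show _ = Function.update s.nd l i k
    by_cases hkl : k = l
    · subst hkl
      rw [Function.update_self, ifz, eq01, if_pos rfl, if_neg (by norm_num), hi.1,
        Nat.mod_eq_of_lt hi.2]
    · rw [Function.update_of_ne hkl, ifz, eq01, if_neg hkl, if_pos rfl,
        Nat.mod_eq_of_lt (h.lt _ (by omega)), h.nd k hk]
  · rw [ht _ (by omega), opA3]
    show _ = Function.update s.sg l g k
    by_cases hkl : k = l
    · subst hkl
      rw [Function.update_self, ifz, eq01, if_pos rfl, if_neg (by norm_num), hg.1,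
        Nat.mod_eq_of_lt hg.2]
    · rw [Function.update_of_ne hkl, ifz, eq01, if_neg hkl, if_pos rfl,
        Nat.mod_eq_of_lt (h.lt _ (by omega)), h.sg k hk]
  · rw [ht _ (by omega), opA4, hq k hk]
    exact Nat.mod_eq_of_lt ((dig_lt (by norm_num) _ _).trans hp2)
  · rw [ht _ (by omega), opA5]
    exact hv _ _ (ha k hk)
  · rw [ht _ (by omega), opA6]
    exact hv _ _ (hs k hk)

theorem invN_cast {p : ℕ} [Fact p.Prime] (hp2 : 2 < p) (c : ℕ) :
    ((invN p c : ℕ) : ZMod p) = (c : ZMod p)⁻¹ := by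
  unfold invN
  rw [ZMod.natCast_mod, prod_const, card_range, Nat.cast_pow]
  by_cases hc : (c : ZMod p) = 0
  · rw [hc, inv_zero, zero_pow (by omega)]
  · have h1 : (c : ZMod p) ^ (p - 1) = 1 := ZMod.pow_card_sub_one_eq_one hc
    have h2 : p - 1 = (p - 2) + 1 := by omega
    rw [h2, pow_succ] at h1
    exact eq_inv_of_mul_eq_one_left h1

theorem ifz_zero (x y : ℕ) : ifz 0 x y = x := rfl

theorem ifz_pos {c : ℕ} (h : c ≠ 0) (x y : ℕ) : ifz c x y = y := if_neg h

theorem eq01_pos {x y : ℕ} (h : x = y) : eq01 x y = 1 := if_pos h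
theorem eq01_neg {x y : ℕ} (h : x ≠ y) : eq01 x y = 0 := if_neg h
theorem lt01_pos {x y : ℕ} (h : x < y) : lt01 x y = 1 := if_pos h
theorem lt01_neg {x y : ℕ} (h : ¬ x < y) : lt01 x y = 0 := if_neg h
theorem le01_pos {x y : ℕ} (h : x ≤ y) : le01 x y = 1 := if_pos h
theorem le01_neg {x y : ℕ} (h : ¬ x ≤ y) : le01 x y = 0 := if_neg h

section

variable {p : ℕ} [hpr : Fact p.Prime] {m : Mach} {J K : ℕ} {a : ℕ → ℕ} {s : Mach.St p}

omit hpr in
theorem Dat.qN (hok : m.Ok) (hf : m.Fit p J K) (h : Dat m J K a s) {t : ℕ} (ht : t ≤ K) :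
    m.qN a t = s.qa t := by
  have hσ := hok.hσ
  unfold Mach.qN
  rw [← tab_dig (q := 2) (s.qa t) m.σ (h.q2 t ht)]
  refine tab_congr fun o ho => ?_
  have h1 : t * m.σ + o < J := by
    have h2 := hf.h3
    have h4 : t * m.σ ≤ K * m.σ := Nat.mul_le_mul_right _ ht
    have h5 : (K + 1) * (3 * m.σ) = 3 * (K * m.σ) + 3 * m.σ := by ring
    omega
  rw [h.qa _ h1]
  have h2 : (t * m.σ + o) / m.σ = t := by
    rw [mul_comm, Nat.mul_add_div hσ, Nat.div_eq_of_lt ho, add_zero]
  have h3 : (t * m.σ + o) % m.σ = o := by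
    rw [mul_comm, Nat.mul_add_mod, Nat.mod_eq_of_lt ho]
  rw [h2, h3]

theorem ta_lt (hok : m.Ok) (i a y r : ℕ) : m.ta i a y r < 2 ^ m.σ := by
  unfold Mach.ta Mach.nA ifz
  split_ifs
  · exact hok.hA _
  · exact Nat.mod_lt _ (by positivity)

theorem Dat.Rc (h : Dat m J K a s) {k : ℕ} (hk : k < J) :
    ((a (7 * k) : ℕ) : ZMod p) = s.R (k / m.wd) (k % m.wd) := by
  rw [h.R k hk, ZMod.natCast_zmod_val]

theorem Dat.acc (h : Dat m J K a s) {k : ℕ} (hk : k < J) :
    ((a (7 * k + 5) : ℕ) : ZMod p) = s.ac k := by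
  rw [h.ac k hk, ZMod.natCast_zmod_val]

theorem Dat.svc (h : Dat m J K a s) {k : ℕ} (hk : k < J) :
    ((a (7 * k + 6) : ℕ) : ZMod p) = s.sv (k / (3 * m.σ)) (k % (3 * m.σ)) := by
  rw [h.sv k hk, ZMod.natCast_zmod_val]

/-- The registers stay the same. -/
theorem rel_same (hf : m.Fit p J K) (h : Dat m J K a s) {l j : ℕ}
    (hE : m.isE a l = 0) (c i g : ℕ)
    (hR : ∀ k < J, ((m.nR p l j a k : ℕ) : ZMod p) = s.R (k / m.wd) (k % m.wd))
    (hc : m.cMd l j a = c ∧ c < p) (hi : m.cNd l j a = i ∧ i < p)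
    (hg : m.cSg l j a = g ∧ g < p) :
    Dat m J K (trc (7 * J) (m.opA p l j a)) (s.call l c i g) := by
  refine build m hf.h5 h s.R s.qa s.ac s.sv c i g hR hc hi hg (fun k hk => ?_)
    (fun k hk => ?_) (fun k hk => ?_) h.q2
  · unfold Mach.nQ Mach.isQ
    rw [hE, zero_mul, zero_mul, ifz_zero, h.qa k hk]
  · unfold Mach.nAc Mach.isQ Mach.isF
    rw [hE, zero_mul, ifz_zero, zero_mul, ifz_zero]
    unfold ifz
    split_ifs <;> exact h.acc hk
  · unfold Mach.nSv Mach.isQ
    rw [hE, zero_mul, zero_mul, ifz_zero, h.svc hk]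

/-- The registers before `i` are multiplied. -/
theorem rel_sca (hf : m.Fit p J K) (h : Dat m J K a s) {l j : ℕ}
    (hE : m.isE a l = 0) (u : ZMod p) (c i g : ℕ)
    (hu : ∀ k < J, ((m.nR p l j a k : ℕ) : ZMod p) =
      Mach.scaR (s.nd (l + 1)) u s.R (k / m.wd) (k % m.wd))
    (hc : m.cMd l j a = c ∧ c < p) (hi : m.cNd l j a = i ∧ i < p)
    (hg : m.cSg l j a = g ∧ g < p) :
    Dat m J K (trc (7 * J) (m.opA p l j a))
      (({ s with R := Mach.scaR (s.nd (l + 1)) u s.R } : Mach.St p).call l c i g) := by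
  refine build m hf.h5 h _ s.qa s.ac s.sv c i g hu hc hi hg (fun k hk => ?_)
    (fun k hk => ?_) (fun k hk => ?_) h.q2
  · unfold Mach.nQ Mach.isQ
    rw [hE, zero_mul, zero_mul, ifz_zero, h.qa k hk]
  · unfold Mach.nAc Mach.isQ Mach.isF
    rw [hE, zero_mul, ifz_zero, zero_mul, ifz_zero]
    unfold ifz
    split_ifs <;> exact h.acc hk
  · unfold Mach.nSv Mach.isQ
    rw [hE, zero_mul, zero_mul, ifz_zero, h.svc hk]

end

/-- The operations of a node. -/
theorem relN {p : ℕ} [hpr : Fact p.Prime] {m : Mach} {J K : ℕ} {a : ℕ → ℕ} {s : Mach.St p}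
    (hf : m.Fit p J K) (h : Dat m J K a s) {l j : ℕ}
    (hl : l < K * (m.G + 2)) (hm : l % (m.G + 2) ≠ 0) :
    Dat m J K (trc (7 * J) (m.opA p l j a)) (m.op l j s) := by
  have hp := hf.h5
  have hG := hf.h4
  have hJ : l + 1 < J := lt_of_le_of_lt hl hf.h2
  have e1 := h.md (l + 1) hJ
  have e2 := h.nd (l + 1) hJ
  have e3 := h.sg (l + 1) hJ
  have l3 := h.lt (7 * (l + 1) + 3) (by omega)
  rw [e3] at l3
  have l2 := h.lt (7 * (l + 1) + 2) (by omega)
  rw [e2] at l2
  have hE : m.isE a l = 0 := by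
    unfold Mach.isE
    rw [eq01_neg hm, zero_mul]
  have hop : m.op l j s = m.opN l (l % (m.G + 2)) j s := by
    unfold Mach.op
    rw [if_neg hm]
  rw [hop]
  have hpos : 0 < l % (m.G + 2) := Nat.pos_of_ne_zero hm
  by_cases hA : s.md (l + 1) = 1 ∧ s.nd (l + 1) < l % (m.G + 2)
  · have hN : m.isN a l = 1 := by
      unfold Mach.isN
      rw [e1, e2, lt01_pos hpos, eq01_pos hA.1, lt01_pos hA.2]
    have hw : j % (2 * m.G + 3) < 2 * m.G + 3 := Nat.mod_lt _ (by omega)
    have hR0 : j % (2 * m.G + 3) ≠ 0 → j % (2 * m.G + 3) ≠ 2 * m.G + 2 →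
        ∀ k < J, ((m.nR p l j a k : ℕ) : ZMod p) = s.R (k / m.wd) (k % m.wd) := by
      intro h0 h1 k hk
      unfold Mach.nR
      rw [hE, ifz_zero, eq01_neg h1, ifz_zero, ifz_pos h0]
      unfold ifz
      split_ifs <;> exact h.Rc hk
    unfold Mach.opN
    rw [if_pos hA]
    by_cases h0 : j % (2 * m.G + 3) = 0
    · rw [if_pos h0]
      refine rel_sca hf h hE _ 0 0 0 (fun k hk => ?_) ⟨?_, by omega⟩ ⟨?_, by omega⟩
        ⟨?_, by omega⟩
      · unfold Mach.nR Mach.scaR
        rw [hE, hN, ifz_zero, h0, ifz_zero, one_mul, e2]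
        by_cases hk2 : k / m.wd < s.nd (l + 1)
        · rw [lt01_pos hk2, ifz_pos one_ne_zero, if_pos hk2, ZMod.natCast_mod, Nat.cast_mul,
            h.Rc hk]
        · rw [lt01_neg hk2, ifz_zero, if_neg hk2, h.Rc hk]
      · unfold Mach.cMd
        rw [hE, ifz_zero, hN, ifz_pos one_ne_zero, h0, ifz_zero]
      · unfold Mach.cNd
        rw [hE, ifz_zero, hN, ifz_pos one_ne_zero, h0, ifz_zero]
      · unfold Mach.cSg
        rw [hE, ifz_zero, hN, ifz_pos one_ne_zero, h0, ifz_zero]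
    rw [if_neg h0]
    by_cases h1 : j % (2 * m.G + 3) ≤ m.G
    · rw [if_pos h1]
      have hR := hR0 h0 (by omega)
      by_cases h2 : j % (2 * m.G + 3) - 1 < s.nd (l + 1)
      · rw [if_pos h2]
        refine rel_same hf h hE 1 (j % (2 * m.G + 3) - 1) 0 hR ⟨?_, by omega⟩ ⟨?_, by omega⟩
          ⟨?_, by omega⟩
        · unfold Mach.cMd
          rw [hE, ifz_zero, hN, ifz_pos one_ne_zero, ifz_pos h0, le01_pos h1,
            ifz_pos one_ne_zero, e2, lt01_pos h2]
        · unfold Mach.cNd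
          rw [hE, ifz_zero, hN, ifz_pos one_ne_zero, ifz_pos h0, le01_pos h1,
            ifz_pos one_ne_zero, e2, lt01_pos h2, one_mul]
        · unfold Mach.cSg
          rw [hE, ifz_zero, hN, ifz_pos one_ne_zero, ifz_pos h0, le01_pos h1,
            ifz_pos one_ne_zero]
      · rw [if_neg h2]
        refine rel_same hf h hE 0 0 0 hR ⟨?_, by omega⟩ ⟨?_, by omega⟩ ⟨?_, by omega⟩
        · unfold Mach.cMd
          rw [hE, ifz_zero, hN, ifz_pos one_ne_zero, ifz_pos h0, le01_pos h1,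
            ifz_pos one_ne_zero, e2, lt01_neg h2]
        · unfold Mach.cNd
          rw [hE, ifz_zero, hN, ifz_pos one_ne_zero, ifz_pos h0, le01_pos h1,
            ifz_pos one_ne_zero, e2, lt01_neg h2, zero_mul]
        · unfold Mach.cSg
          rw [hE, ifz_zero, hN, ifz_pos one_ne_zero, ifz_pos h0, le01_pos h1,
            ifz_pos one_ne_zero]
    rw [if_neg h1]
    by_cases h3 : j % (2 * m.G + 3) = m.G + 1
    · rw [if_pos h3]
      have hR := hR0 h0 (by omega)
      refine rel_same hf h hE 2 (s.nd (l + 1)) (s.sg (l + 1)) hR ⟨?_, by omega⟩ ⟨?_, l2⟩ ⟨?_, l3⟩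
      · unfold Mach.cMd
        rw [hE, ifz_zero, hN, ifz_pos one_ne_zero, ifz_pos h0, le01_neg h1,
          ifz_zero, eq01_pos h3, ifz_pos one_ne_zero]
      · unfold Mach.cNd
        rw [hE, ifz_zero, hN, ifz_pos one_ne_zero, ifz_pos h0, le01_neg h1,
          ifz_zero, eq01_pos h3, ifz_pos one_ne_zero, e2]
      · unfold Mach.cSg
        rw [hE, ifz_zero, hN, ifz_pos one_ne_zero, ifz_pos h0, le01_neg h1,
          ifz_zero, eq01_pos h3, ifz_pos one_ne_zero, e3]
    rw [if_neg h3]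
    by_cases h4 : j % (2 * m.G + 3) ≤ 2 * m.G + 1
    · rw [if_pos h4]
      have hR := hR0 h0 (by omega)
      by_cases h5 : j % (2 * m.G + 3) - (m.G + 2) < s.nd (l + 1)
      · rw [if_pos h5]
        refine rel_same hf h hE 1 (j % (2 * m.G + 3) - (m.G + 2)) 1 hR ⟨?_, by omega⟩
          ⟨?_, by omega⟩ ⟨?_, by omega⟩
        · unfold Mach.cMd
          rw [hE, ifz_zero, hN, ifz_pos one_ne_zero, ifz_pos h0, le01_neg h1,
            ifz_zero, eq01_neg h3, ifz_zero, le01_pos h4, ifz_pos one_ne_zero, e2, lt01_pos h5]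
        · unfold Mach.cNd
          rw [hE, ifz_zero, hN, ifz_pos one_ne_zero, ifz_pos h0, le01_neg h1,
            ifz_zero, eq01_neg h3, ifz_zero, le01_pos h4, ifz_pos one_ne_zero, e2, lt01_pos h5,
            one_mul]
        · unfold Mach.cSg
          rw [hE, ifz_zero, hN, ifz_pos one_ne_zero, ifz_pos h0, le01_neg h1,
            ifz_zero, eq01_neg h3, ifz_zero, le01_pos h4, ifz_pos one_ne_zero, e2, lt01_pos h5]
      · rw [if_neg h5]
        refine rel_same hf h hE 0 0 0 hR ⟨?_, by omega⟩ ⟨?_, by omega⟩ ⟨?_, by omega⟩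
        · unfold Mach.cMd
          rw [hE, ifz_zero, hN, ifz_pos one_ne_zero, ifz_pos h0, le01_neg h1,
            ifz_zero, eq01_neg h3, ifz_zero, le01_pos h4, ifz_pos one_ne_zero, e2, lt01_neg h5]
        · unfold Mach.cNd
          rw [hE, ifz_zero, hN, ifz_pos one_ne_zero, ifz_pos h0, le01_neg h1,
            ifz_zero, eq01_neg h3, ifz_zero, le01_pos h4, ifz_pos one_ne_zero, e2, lt01_neg h5,
            zero_mul]
        · unfold Mach.cSg
          rw [hE, ifz_zero, hN, ifz_pos one_ne_zero, ifz_pos h0, le01_neg h1,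
            ifz_zero, eq01_neg h3, ifz_zero, le01_pos h4, ifz_pos one_ne_zero, e2, lt01_neg h5]
    · rw [if_neg h4]
      have h6 : j % (2 * m.G + 3) = 2 * m.G + 2 := by omega
      refine rel_sca hf h hE _ 0 0 0 (fun k hk => ?_) ⟨?_, by omega⟩ ⟨?_, by omega⟩
        ⟨?_, by omega⟩
      · unfold Mach.nR Mach.scaR
        rw [hE, hN, ifz_zero, ifz_pos h0, eq01_pos h6, ifz_pos one_ne_zero, one_mul, e2]
        by_cases hk2 : k / m.wd < s.nd (l + 1)
        · rw [lt01_pos hk2, ifz_pos one_ne_zero, if_pos hk2, ZMod.natCast_mod, Nat.cast_mul,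
            h.Rc hk, invN_cast hp]
        · rw [lt01_neg hk2, ifz_zero, if_neg hk2, h.Rc hk]
      · unfold Mach.cMd
        rw [hE, ifz_zero, hN, ifz_pos one_ne_zero, ifz_pos h0, le01_neg h1,
          ifz_zero, eq01_neg h3, ifz_zero, le01_neg h4, ifz_zero]
      · unfold Mach.cNd
        rw [hE, ifz_zero, hN, ifz_pos one_ne_zero, ifz_pos h0, le01_neg h1,
          ifz_zero, eq01_neg h3, ifz_zero, le01_neg h4, ifz_zero]
      · unfold Mach.cSg
        rw [hE, ifz_zero, hN, ifz_pos one_ne_zero, ifz_pos h0, le01_neg h1,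
          ifz_zero, eq01_neg h3, ifz_zero, le01_neg h4, ifz_zero]
  · have hN : m.isN a l = 0 := by
      unfold Mach.isN
      rw [e1, e2, lt01_pos hpos, one_mul]
      by_cases h1 : s.md (l + 1) = 1
      · rw [lt01_neg fun h2 => hA ⟨h1, h2⟩, mul_zero]
      · rw [eq01_neg h1, zero_mul]
    have hR : ∀ k < J, ((m.nR p l j a k : ℕ) : ZMod p) = s.R (k / m.wd) (k % m.wd) := by
      intro k hk
      unfold Mach.nR
      rw [hE, hN, ifz_zero, zero_mul, ifz_zero, h.Rc hk]
    unfold Mach.opN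
    rw [if_neg hA]
    by_cases hB : s.md (l + 1) = 2 ∧ s.nd (l + 1) ≤ m.G ∧ j = 0
    · have hP : m.isP a l j = 1 := by
        unfold Mach.isP
        rw [e1, e2, lt01_pos hpos, eq01_pos hB.1, le01_pos hB.2.1, eq01_pos hB.2.2]
      rw [if_pos hB]
      refine rel_same hf h hE 2 (s.nd (l + 1)) (s.sg (l + 1)) hR ⟨?_, by omega⟩ ⟨?_, l2⟩ ⟨?_, l3⟩
      · unfold Mach.cMd
        rw [hE, hN, ifz_zero, ifz_zero, hP, ifz_pos one_ne_zero]
      · unfold Mach.cNd
        rw [hE, hN, ifz_zero, ifz_zero, hP, ifz_pos one_ne_zero, e2]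
      · unfold Mach.cSg
        rw [hE, hN, ifz_zero, ifz_zero, hP, ifz_pos one_ne_zero, e3]
    · have hP : m.isP a l j = 0 := by
        unfold Mach.isP
        rw [e1, e2, lt01_pos hpos, one_mul]
        by_cases h1 : s.md (l + 1) = 2
        · by_cases h2 : s.nd (l + 1) ≤ m.G
          · rw [eq01_neg fun h3 => hB ⟨h1, h2, h3⟩, mul_zero]
          · rw [le01_neg h2, mul_zero, zero_mul]
        · rw [eq01_neg h1, zero_mul, zero_mul]
      rw [if_neg hB]
      refine rel_same hf h hE 0 0 0 hR ⟨?_, by omega⟩ ⟨?_, by omega⟩ ⟨?_, by omega⟩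
      · unfold Mach.cMd
        rw [hE, hN, ifz_zero, ifz_zero, hP, ifz_zero]
      · unfold Mach.cNd
        rw [hE, hN, ifz_zero, ifz_zero, hP, ifz_zero]
      · unfold Mach.cSg
        rw [hE, hN, ifz_zero, ifz_zero, hP, ifz_zero]

/-- The operations of the evaluation of the polynomials. -/
theorem relE {p : ℕ} [hpr : Fact p.Prime] {m : Mach} {J K : ℕ} {a : ℕ → ℕ} {s : Mach.St p}
    (hF : FCAST_stmt) (hok : m.Ok) (hf : m.Fit p J K) (h : Dat m J K a s) {l j : ℕ}
    (hl : l < K * (m.G + 2)) (hm : l % (m.G + 2) = 0) :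
    Dat m J K (trc (7 * J) (m.opA p l j a)) (m.op l j s) := by
  have hp := hf.h5
  have hG := hf.h4
  have hσ := hok.hσ
  have hb := hok.hb
  have hJ : l + 1 < J := lt_of_le_of_lt hl hf.h2
  have e1 := h.md (l + 1) hJ
  have e2 := h.nd (l + 1) hJ
  have e3 := h.sg (l + 1) hJ
  have hN : m.isN a l = 0 := by
    unfold Mach.isN
    rw [hm, lt01_neg (lt_irrefl 0), zero_mul]
  have hP : m.isP a l j = 0 := by
    unfold Mach.isP
    rw [hm, lt01_neg (lt_irrefl 0), zero_mul]
  have hop : m.op l j s = m.opE l (l / (m.G + 2)) j s := by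
    unfold Mach.op
    rw [if_pos hm]
  rw [hop]
  have hkK : l / (m.G + 2) < K := by
    rw [Nat.div_lt_iff_lt_mul (by omega)]
    exact hl
  have hwd : m.wd = m.σ + 2 * m.σ * m.b := by unfold Mach.wd; ring
  have hwd0 : 0 < m.wd := by rw [hwd]; omega
  have h3w : 3 * m.σ ≤ m.wd := by
    rw [hwd]
    nlinarith
  have hqk : m.qN a (l / (m.G + 2) + 1) = s.qa (l / (m.G + 2) + 1) := h.qN hok hf hkK
  have hJk : l / (m.G + 2) < J := by
    have := hf.h3
    nlinarith
  have hacc := h.acc hJk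
  unfold Mach.opE
  by_cases hA : s.md (l + 1) = 2 ∧ s.nd (l + 1) ≤ m.G
  · have hE : m.isE a l = 1 := by
      unfold Mach.isE
      rw [e1, e2, eq01_pos hm, eq01_pos hA.1, le01_pos hA.2]
    rw [if_pos hA]
    have hw : j % (2 * m.b + 1) < 2 * m.b + 1 := Nat.mod_lt _ (by omega)
    by_cases h1 : j % (2 * m.b + 1) = 2 * m.b
    · rw [if_pos h1]
      have hQ : m.isQ a l j = 0 := by
        unfold Mach.isQ
        rw [h1, lt01_neg (lt_irrefl _), zero_mul, mul_zero]
      have hFi : m.isF a l j = 0 := by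
        unfold Mach.isF
        rw [eq01_neg (by omega), mul_zero]
      refine build m hp h _ s.qa s.ac s.sv 0 0 0 (fun k hk => ?_) ⟨?_, by omega⟩ ⟨?_, by omega⟩
        ⟨?_, by omega⟩ (fun k hk => ?_) (fun k hk => ?_) (fun k hk => ?_) h.q2
      · unfold Mach.nR Mach.addR
        rw [hE, ifz_pos one_ne_zero, eq01_pos h1, one_mul, e2, e3, hqk]
        by_cases hk2 : k / m.wd = s.nd (l + 1)
        · rw [eq01_pos hk2, ifz_pos one_ne_zero, if_pos hk2, ZMod.natCast_mod, Nat.cast_add,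
            Nat.cast_mul, Nat.cast_mul, h.Rc hk, hacc]
          congr 1
          by_cases hs : s.sg (l + 1) = 0
          · rw [hs, ifz_zero, Nat.cast_sub (by omega), ZMod.natCast_self, Mach.sgz, if_pos rfl]
            push_cast
            ring
          · rw [ifz_pos hs, Mach.sgz, if_neg hs]
            push_cast
            ring
        · rw [eq01_neg hk2, ifz_zero, if_neg hk2, h.Rc hk]
      · unfold Mach.cMd
        rw [hE, ifz_pos one_ne_zero, eq01_pos h1, ifz_pos one_ne_zero]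
      · unfold Mach.cNd
        rw [hE, ifz_pos one_ne_zero, eq01_pos h1, ifz_pos one_ne_zero]
      · unfold Mach.cSg
        rw [hE, ifz_pos one_ne_zero, eq01_pos h1, ifz_pos one_ne_zero]
      · unfold Mach.nQ
        rw [hQ, zero_mul, ifz_zero, h.qa k hk]
      · unfold Mach.nAc
        rw [hQ, ifz_zero, hFi, ifz_zero]
        unfold ifz
        split_ifs <;> exact h.acc hk
      · unfold Mach.nSv
        rw [hQ, zero_mul, ifz_zero, h.svc hk]
    rw [if_neg h1]
    have hlt : j % (2 * m.b + 1) < 2 * m.b := by omega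
    have hR : ∀ k < J, ((m.nR p l j a k : ℕ) : ZMod p) = s.R (k / m.wd) (k % m.wd) := by
      intro k hk
      unfold Mach.nR
      rw [hE, ifz_pos one_ne_zero, eq01_neg h1, zero_mul, ifz_zero, h.Rc hk]
    have hmd : m.cMd l j a = 1 := by
      unfold Mach.cMd
      rw [hE, ifz_pos one_ne_zero, eq01_neg h1, ifz_zero]
    have hnd : m.cNd l j a = m.G := by
      unfold Mach.cNd
      rw [hE, ifz_pos one_ne_zero, eq01_neg h1, ifz_zero]
    have hsg : m.cSg l j a = j % (2 * m.b + 1) % 2 := by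
      unfold Mach.cSg
      rw [hE, ifz_pos one_ne_zero, eq01_neg h1, ifz_zero]
    have hGJ : ∀ o < 3 * m.σ, m.G * m.wd + o < J ∧ (m.G * m.wd + o) / m.wd = m.G ∧
        (m.G * m.wd + o) % m.wd = o := by
      intro o ho
      have ho' : o < m.wd := by omega
      refine ⟨?_, ?_, ?_⟩
      · have h5 := hf.h1
        have h6 : (m.G + 1) * m.wd = m.G * m.wd + m.wd := by ring
        omega
      · rw [mul_comm, Nat.mul_add_div hwd0, Nat.div_eq_of_lt ho', add_zero]
      · rw [mul_comm, Nat.mul_add_mod, Nat.mod_eq_of_lt ho']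
    by_cases h2 : j % (2 * m.b + 1) % 2 = 0
    · rw [if_pos h2]
      have hQ : m.isQ a l j = 1 := by
        unfold Mach.isQ
        rw [hE, lt01_pos hlt, eq01_pos h2]
      refine build m hp h s.R _ _ _ 1 m.G 0 hR ⟨hmd, by omega⟩ ⟨hnd, hG⟩
        ⟨hsg.trans h2, by omega⟩ (fun k hk => ?_) (fun k hk => ?_) (fun k hk => ?_)
        (fun t ht => ?_)
      · unfold Mach.nQ
        rw [hQ, one_mul, e2, hqk]
        by_cases hk2 : k / m.σ = l / (m.G + 2)
        · rw [eq01_pos hk2, ifz_pos one_ne_zero, hk2, Function.update_self]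
        · rw [eq01_neg hk2, ifz_zero, Function.update_of_ne hk2, h.qa k hk]
      · unfold Mach.nAc
        by_cases hk2 : k = l / (m.G + 2)
        · rw [eq01_pos hk2, ifz_pos one_ne_zero, hQ, ifz_pos one_ne_zero, hk2,
            Function.update_self]
          by_cases h3 : j % (2 * m.b + 1) = 0
          · rw [h3, ifz_zero, if_pos rfl, Nat.cast_one]
          · rw [ifz_pos h3, if_neg h3, hacc]
        · rw [eq01_neg hk2, ifz_zero, Function.update_of_ne hk2, h.acc hk]
      · unfold Mach.nSv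
        rw [hQ, one_mul]
        by_cases hk2 : k / (3 * m.σ) = l / (m.G + 2)
        · obtain ⟨h7, h8, h9⟩ := hGJ (k % (3 * m.σ)) (Nat.mod_lt _ (by omega))
          rw [eq01_pos hk2, ifz_pos one_ne_zero, hk2, Function.update_self, h.Rc h7, h8, h9]
        · rw [eq01_neg hk2, ifz_zero, Function.update_of_ne hk2, h.svc hk]
      · by_cases ht2 : t = l / (m.G + 2)
        · rw [ht2, Function.update_self]
          exact ta_lt hok _ _ _ _
        · rw [Function.update_of_ne ht2]
          exact h.q2 t ht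
    · rw [if_neg h2]
      have h3 : j % (2 * m.b + 1) % 2 = 1 := by omega
      have hQ : m.isQ a l j = 0 := by
        unfold Mach.isQ
        rw [eq01_neg h2, mul_zero, mul_zero]
      have hFi : m.isF a l j = 1 := by
        unfold Mach.isF
        rw [hE, eq01_pos h3]
      refine build m hp h s.R s.qa _ s.sv 1 m.G 1 hR ⟨hmd, by omega⟩ ⟨hnd, hG⟩
        ⟨hsg.trans h3, by omega⟩ (fun k hk => ?_) (fun k hk => ?_) (fun k hk => ?_) h.q2
      · unfold Mach.nQ
        rw [hQ, zero_mul, ifz_zero, h.qa k hk]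
      · unfold Mach.nAc
        by_cases hk2 : k = l / (m.G + 2)
        · rw [eq01_pos hk2, ifz_pos one_ne_zero, hQ, ifz_zero, hFi, ifz_pos one_ne_zero, hk2,
            Function.update_self, ZMod.natCast_mod, Nat.cast_mul, hacc, e2, hqk]
          congr 1
          refine hF m p hok _ _ _ _ _ _ _ _ (by omega) (fun o ho => ⟨Nat.mod_lt _ (by omega), ?_⟩)
            (fun i' hi' o ho => ?_)
          · obtain ⟨h7, h8, h9⟩ := hGJ o ho
            have h10 : l / (m.G + 2) * (3 * m.σ) + o < J := by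
              have h11 := hf.h3
              have h12 : (l / (m.G + 2) + 1) * (3 * m.σ) ≤ (K + 1) * (3 * m.σ) :=
                Nat.mul_le_mul_right _ (by omega)
              have h13 : (l / (m.G + 2) + 1) * (3 * m.σ) =
                l / (m.G + 2) * (3 * m.σ) + 3 * m.σ := by ring
              omega
            have h14 : (l / (m.G + 2) * (3 * m.σ) + o) / (3 * m.σ) = l / (m.G + 2) := by
              rw [mul_comm, Nat.mul_add_div (by omega), Nat.div_eq_of_lt ho, add_zero]
            have h15 : (l / (m.G + 2) * (3 * m.σ) + o) % (3 * m.σ) = o := by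
              rw [mul_comm, Nat.mul_add_mod, Nat.mod_eq_of_lt ho]
            have h16 := h.lt (7 * (l / (m.G + 2) * (3 * m.σ) + o) + 6) (by omega)
            rw [ZMod.natCast_mod, Nat.cast_add, Nat.cast_sub h16.le, ZMod.natCast_self,
              h.Rc h7, h8, h9, h.svc h10, h14, h15]
            ring
          · have h7 : i' * m.wd + o < J := by
              have h8 := hf.h1
              have h9 : (i' + 1) * m.wd ≤ (m.G + 1) * m.wd :=
                Nat.mul_le_mul_right _ (by omega)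
              have h10 : (i' + 1) * m.wd = i' * m.wd + m.wd := by ring
              omega
            have h8 : (i' * m.wd + o) / m.wd = i' := by
              rw [mul_comm, Nat.mul_add_div hwd0, Nat.div_eq_of_lt ho, add_zero]
            have h9 : (i' * m.wd + o) % m.wd = o := by
              rw [mul_comm, Nat.mul_add_mod, Nat.mod_eq_of_lt ho]
            refine ⟨h.lt _ (by omega), ?_⟩
            rw [h.Rc h7, h8, h9]
        · rw [eq01_neg hk2, ifz_zero, Function.update_of_ne hk2, h.acc hk]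
      · unfold Mach.nSv
        rw [hQ, zero_mul, ifz_zero, h.svc hk]
  · have hE : m.isE a l = 0 := by
      unfold Mach.isE
      rw [e1, e2, eq01_pos hm, one_mul]
      by_cases h1 : s.md (l + 1) = 2
      · rw [le01_neg fun h2 => hA ⟨h1, h2⟩, mul_zero]
      · rw [eq01_neg h1, zero_mul]
    rw [if_neg hA]
    refine rel_same hf h hE 0 0 0 (fun k hk => ?_) ⟨?_, by omega⟩ ⟨?_, by omega⟩ ⟨?_, by omega⟩
    · unfold Mach.nR
      rw [hE, hN, ifz_zero, zero_mul, ifz_zero, h.Rc hk]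
    · unfold Mach.cMd
      rw [hE, hN, ifz_zero, ifz_zero, hP, ifz_zero]
    · unfold Mach.cNd
      rw [hE, hN, ifz_zero, ifz_zero, hP, ifz_zero]
    · unfold Mach.cSg
      rw [hE, hN, ifz_zero, ifz_zero, hP, ifz_zero]

theorem REL (hF : FCAST_stmt) : REL_stmt := by
  intro m p hpr hok J K hf
  refine ⟨fun l hl j a s h => ?_, fun a s h => ?_⟩
  · rw [rel_iff] at h ⊢
    by_cases hm : l % (m.G + 2) = 0
    · exact relE hF hok hf h hl hm
    · exact relN hf h hl hm
  · have hD := (rel_iff m J K a s).1 h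
    have hp := hf.h5
    have hJ := hf.h2
    have hJ0 : 0 < J := by omega
    have hσ := hok.hσ
    have hwd0 : 0 < m.wd := Nat.mul_pos hσ (by omega)
    have e1 : a 1 = s.md 0 := by simpa using hD.md 0 hJ0
    have e3 : a 3 = s.sg 0 := by simpa using hD.sg 0 hJ0
    have hq0 : m.qN a 0 = s.qa 0 := hD.qN hok hf (Nat.zero_le K)
    have hbase : ∀ x, m.baseA p a x = (a x + eq01 (s.md 0) 1 * (eq01 (x % 7) 0 *
        eq01 (x / 7 / m.wd) m.G) * (ifz (s.sg 0) 1 (p - 1) * m.topc m.q0 (s.qa 0)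
          (m.M0 (s.qa 0)) (x / 7 % m.wd))) % p := by
      intro x
      unfold Mach.baseA
      rw [e1, e3, hq0]
    have ht : ∀ x < 7 * J, trc (7 * J) (m.baseA p a) x = m.baseA p a x := fun x hx => if_pos hx
    have hsame : ∀ k < J, ∀ c, 0 < c → c < 7 → m.baseA p a (7 * k + c) = a (7 * k + c) := by
      intro k hk c hc hc7
      rw [hbase, eq01_neg (x := (7 * k + c) % 7) (by omega), zero_mul, mul_zero, zero_mul,
        add_zero, Nat.mod_eq_of_lt (hD.lt _ (by omega))]
    unfold Mach.op0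
    rw [rel_iff]
    by_cases hA : s.md 0 = 1
    · rw [if_pos hA]
      refine ⟨fun x hx => ?_, fun k hk => ?_, fun k hk => ?_, fun k hk => ?_, fun k hk => ?_,
        fun k hk => ?_, fun k hk => ?_, fun k hk => ?_, hD.q2⟩
      · rw [ht x hx]
        exact Nat.mod_lt _ (by omega)
      · rw [ht _ (by omega), hbase]
        have h1 : 7 * k % 7 = 0 := by omega
        have h2 : 7 * k / 7 = k := by omega
        rw [h1, h2, eq01_pos hA, eq01_pos rfl, one_mul, one_mul, ← ZMod.val_natCast]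
        congr 1
        rw [Nat.cast_add, hD.Rc hk]
        unfold Mach.addR
        show _ = (if k / m.wd = m.G then s.R (k / m.wd) (k % m.wd) + Mach.sgz p (s.sg 0) *
          ((m.topc m.q0 (s.qa 0) (m.M0 (s.qa 0)) (k % m.wd) : ℕ) : ZMod p)
          else s.R (k / m.wd) (k % m.wd))
        by_cases hk2 : k / m.wd = m.G
        · rw [eq01_pos hk2, one_mul, if_pos hk2, Nat.cast_mul]
          congr 1
          congr 1
          by_cases hs : s.sg 0 = 0
          · rw [hs, ifz_zero, Mach.sgz, if_pos rfl, Nat.cast_one]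
          · rw [ifz_pos hs, Mach.sgz, if_neg hs, Nat.cast_sub (by omega), ZMod.natCast_self]
            push_cast
            ring
        · rw [eq01_neg hk2, zero_mul, if_neg hk2, Nat.cast_zero, add_zero]
      · rw [ht _ (by omega), hsame k hk 1 (by norm_num) (by norm_num), hD.md k hk]
      · rw [ht _ (by omega), hsame k hk 2 (by norm_num) (by norm_num), hD.nd k hk]
      · rw [ht _ (by omega), hsame k hk 3 (by norm_num) (by norm_num), hD.sg k hk]
      · rw [ht _ (by omega), hsame k hk 4 (by norm_num) (by norm_num), hD.qa k hk]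
      · rw [ht _ (by omega), hsame k hk 5 (by norm_num) (by norm_num), hD.ac k hk]
      · rw [ht _ (by omega), hsame k hk 6 (by norm_num) (by norm_num), hD.sv k hk]
    · rw [if_neg hA]
      have hall : ∀ x < 7 * J, trc (7 * J) (m.baseA p a) x = a x := by
        intro x hx
        rw [ht x hx, hbase, eq01_neg hA, zero_mul, zero_mul, add_zero,
          Nat.mod_eq_of_lt (hD.lt x hx)]
      refine ⟨fun x hx => ?_, fun k hk => ?_, fun k hk => ?_, fun k hk => ?_, fun k hk => ?_,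
        fun k hk => ?_, fun k hk => ?_, fun k hk => ?_, hD.q2⟩
      · rw [hall x hx]
        exact hD.lt x hx
      · rw [hall _ (by omega), hD.R k hk]
      · rw [hall _ (by omega), hD.md k hk]
      · rw [hall _ (by omega), hD.nd k hk]
      · rw [hall _ (by omega), hD.sg k hk]
      · rw [hall _ (by omega), hD.qa k hk]
      · rw [hall _ (by omega), hD.ac k hk]
      · rw [hall _ (by omega), hD.sv k hk]

end Pool.Agent.Helper33.Ram
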