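import Pool.Agent.Helper28.Ram.Goals

/-!
# FCAST: the numeric factor is the factor
-/

namespace Pool.Agent.Helper33.Ram

open Pool.Agent.Helper65.LinSpace Pool.Agent.Helper78.Mpc Finset Pool.Agent.Helper28.Ram

theorem eqN_lt {p : ℕ} (hp : 0 < p) (σ q : ℕ) (X : ℕ → ℕ) : eqN p σ q X < p :=
  Nat.mod_lt _ hp

theorem eqN_cast {p : ℕ} (σ q : ℕ) (X : ℕ → ℕ) (X' : ℕ → ZMod p)
    (h : ∀ o < σ, X o < p ∧ ((X o : ℕ) : ZMod p) = X' o) :
    ((eqN p σ q X : ℕ) : ZMod p) = Mach.eqc p σ q X' := by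
  unfold eqN Mach.eqc
  rw [ZMod.natCast_mod, Nat.cast_prod]
  refine prod_congr rfl fun o ho => ?_
  obtain ⟨h1, h2⟩ := h o (mem_range.1 ho)
  rcases dig_two q o with h3 | h3
  · rw [h3, if_neg (by norm_num), ifz, if_pos rfl, Nat.cast_sub (by omega), h2]
    push_cast
    rw [ZMod.natCast_self, zero_add]
  · rw [h3, if_pos rfl, ifz, if_neg (by norm_num), h2]

theorem cell_lt (m : Mach) (q : ℕ) (f g : ℕ → ℕ) (o : ℕ) : m.cell q f g o < 2 := by
  unfold Mach.cell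
  have h0 : ∀ R i, dig 2 R i < 2 := fun R i => dig_lt (by norm_num) R i
  have h1 : lt01 o m.wd = 0 ∨ lt01 o m.wd = 1 := by
    unfold lt01
    split_ifs <;> simp
  have h2 : ifz (lt01 o m.σ)
    (ifz (lt01 ((o - m.σ) % (2 * m.σ)) m.σ)
      (dig 2 (g ((o - m.σ) / (2 * m.σ))) ((o - m.σ) % (2 * m.σ) - m.σ))
      (dig 2 (f ((o - m.σ) / (2 * m.σ))) ((o - m.σ) % (2 * m.σ))))
    (dig 2 q o) < 2 := by
    unfold ifz
    split_ifs <;> exact h0 _ _
  rcases h1 with h | h <;> rw [h]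
  · simp
  · rw [one_mul]
    exact h2

theorem hN_cast {p : ℕ} (m : Mach) (hp : 0 < p) (a v h : ℕ) (h' : ZMod p) (X : ℕ → ℕ)
    (X' : ℕ → ℕ → ZMod p) (hh : h < p ∧ ((h : ℕ) : ZMod p) = h') (n : ℕ)
    (hX : ∀ e < n, ∀ o < 2 * m.σ, X (e / m.b * m.wd + (m.σ + 2 * m.σ * (e % m.b) + o)) < p ∧
      ((X (e / m.b * m.wd + (m.σ + 2 * m.σ * (e % m.b) + o)) : ℕ) : ZMod p) =
        X' (e / m.b) (m.σ + 2 * m.σ * (e % m.b) + o)) :
    m.hN p a v h X n < p ∧ ((m.hN p a v h X n : ℕ) : ZMod p) = m.hr p a v h' X' n := by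
  induction n with
  | zero => exact hh
  | succ n ih =>
    obtain ⟨h1, h2⟩ := ih fun e he => hX e (by omega)
    have e1 : m.hN p a v h X (n + 1) = (m.hN p a v h X n + eqN p m.σ a (fun o =>
        X (n / m.b * m.wd + (m.σ + 2 * m.σ * (n % m.b) + o))) *
        (eqN p m.σ v (fun o => X (n / m.b * m.wd + (m.σ + 2 * m.σ * (n % m.b) + m.σ + o))) +
          (p - m.hN p a v h X n))) % p := rfl
    have e2 : m.hr p a v h' X' (n + 1) = m.hr p a v h' X' n + Mach.eqc p m.σ a (fun o =>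
        X' (n / m.b) (m.σ + 2 * m.σ * (n % m.b) + o)) *
      (Mach.eqc p m.σ v (fun o => X' (n / m.b) (m.σ + 2 * m.σ * (n % m.b) + m.σ + o)) -
        m.hr p a v h' X' n) := rfl
    refine ⟨by rw [e1]; exact Nat.mod_lt _ hp, ?_⟩
    rw [e1, e2, ZMod.natCast_mod]
    push_cast
    rw [Nat.cast_sub h1.le, ZMod.natCast_self, zero_sub, h2,
      eqN_cast m.σ a _ (fun o => X' (n / m.b) (m.σ + 2 * m.σ * (n % m.b) + o))
        (fun o ho => hX n (Nat.lt_succ_self n) o (by omega)),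
      eqN_cast m.σ v _ (fun o => X' (n / m.b) (m.σ + 2 * m.σ * (n % m.b) + m.σ + o))
        (fun o ho => ?_), ← sub_eq_add_neg]
    have := hX n (Nat.lt_succ_self n) (m.σ + o) (by omega)
    rwa [← add_assoc (m.σ + 2 * m.σ * (n % m.b)) m.σ o] at this

theorem FCAST : FCAST_stmt := by
  intro m p hpr hok i a y r D X D' X' hr hD hX
  have hp : 0 < p := hpr.out.pos
  have hp2 : 2 ≤ p := hpr.out.two_le
  have hwd : m.wd = m.σ + 2 * m.σ * m.b := by unfold Mach.wd; ring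
  have hσ := hok.hσ
  have hb := hok.hb
  have hwd0 : 0 < m.wd := by rw [hwd]; omega
  have h3 : 3 * m.σ ≤ m.wd := by
    rw [hwd]
    nlinarith
  unfold Mach.fN Mach.fct
  rw [ZMod.natCast_mod, Nat.cast_mul]
  congr 1
  · by_cases h0 : r = 0
    · rw [if_pos h0, ifz, if_pos h0]
      refine eqN_cast _ _ _ _ fun o ho => ?_
      by_cases hi : i = 0
      · rw [ifz, if_pos hi, if_pos hi]
        exact hD o (by omega)
      · rw [ifz, if_neg hi, if_neg hi]
        exact hX (i - 1) (by omega) o (by omega)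
    · rw [if_neg h0, ifz, if_neg h0, Nat.cast_one]
  · refine (hN_cast m hp _ _ _ _ _ _ ⟨eqN_lt hp _ _ _, eqN_cast _ _ _ _ fun o ho =>
      hD (2 * m.σ + o) (by omega)⟩ _ ?_).2
    intro e he o ho
    have ho' : m.σ + 2 * m.σ * (e % m.b) + o < m.wd := by
      have h5 : e % m.b < m.b := Nat.mod_lt _ hb
      have h6 : 2 * m.σ * (e % m.b) + 2 * m.σ ≤ 2 * m.σ * m.b := by
        calc 2 * m.σ * (e % m.b) + 2 * m.σ = 2 * m.σ * (e % m.b + 1) := by ring
          _ ≤ 2 * m.σ * m.b := Nat.mul_le_mul_left _ h5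
      omega
    generalize m.σ + 2 * m.σ * (e % m.b) + o = o' at ho' ⊢
    have hq1 : (e / m.b * m.wd + o') / m.wd = e / m.b := by
      rw [mul_comm, Nat.mul_add_div hwd0, Nat.div_eq_of_lt ho', add_zero]
    have hq2 : (e / m.b * m.wd + o') % m.wd = o' := by
      rw [mul_comm, Nat.mul_add_mod, Nat.mod_eq_of_lt ho']
    have he' : e / m.b ≤ i := by
      rw [← Nat.lt_succ_iff, Nat.div_lt_iff_lt_mul hb]
      calc e < i * m.b + r := he
        _ < i * m.b + m.b := by omega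
        _ = (i + 1) * m.b := by ring
    rw [hq1, hq2]
    by_cases hei : e / m.b = i
    · rw [if_pos hei]
      have : eq01 (e / m.b) i = 1 := by rw [eq01, if_pos hei]
      rw [this]
      refine ⟨lt_of_lt_of_le (cell_lt m _ _ _ _) hp2, rfl⟩
    · rw [if_neg hei]
      have : eq01 (e / m.b) i = 0 := by rw [eq01, if_neg hei]
      rw [this]
      exact hX (e / m.b) (by omega) o' ho'

end Pool.Agent.Helper33.Ram
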